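import Pool.Agent.Helper97.EM.IRB

/-!
EM, row BFM: the form on a real block.
-/

set_option autoImplicit false

open Matrix MT

namespace EM.A97

variable {K : Type} [Field K] {n : ℕ}

theorem adj_self {ψ e : Matrix (Fin n) (Fin n) K} (hψ : ψ.det ≠ 0) (he : adj ψ e = e) :
    e.transpose * ψ = ψ * e := by
  have hu : IsUnit ψ.det := isUnit_iff_ne_zero.2 hψ
  have h1 : ψ * adj ψ e = e.transpose * ψ := by
    unfold adj
    rw [Matrix.mul_assoc, ← Matrix.mul_assoc, Matrix.mul_nonsing_inv _ hu, Matrix.one_mul]
  rw [← h1, he]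

theorem frm_left {ψ : Matrix (Fin n) (Fin n) K} {L : Submodule K (Matrix (Fin n) (Fin n) K)}
    {P : Matrix.GeneralLinearGroup (Fin n) K} {k : Fin n} {r : ℕ} {f : Fin r → Fin n}
    (h2 : UU P f * VV P f = idm L P k) (h3 : idm L P k * UU P f = UU P f)
    (he : (idm L P k).transpose * ψ = ψ * idm L P k) :
    ψ * UU P f = (VV P f).transpose * frm ψ P f := by
  calc ψ * UU P f = ψ * (idm L P k * UU P f) := by rw [h3]
    _ = (idm L P k).transpose * ψ * UU P f := by rw [he, Matrix.mul_assoc]
    _ = (VV P f).transpose * frm ψ P f := by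
        rw [← h2, Matrix.transpose_mul]
        unfold frm
        simp only [Matrix.mul_assoc]

theorem frm_right {ψ : Matrix (Fin n) (Fin n) K} {L : Submodule K (Matrix (Fin n) (Fin n) K)}
    {P : Matrix.GeneralLinearGroup (Fin n) K} {k : Fin n} {r : ℕ} {f : Fin r → Fin n}
    (h2 : UU P f * VV P f = idm L P k) (h3 : idm L P k * UU P f = UU P f)
    (he : (idm L P k).transpose * ψ = ψ * idm L P k) :
    (UU P f).transpose * ψ = frm ψ P f * VV P f := by
  calc (UU P f).transpose * ψ = (idm L P k * UU P f).transpose * ψ := by rw [h3]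
    _ = (UU P f).transpose * (ψ * idm L P k) := by
        rw [Matrix.transpose_mul, Matrix.mul_assoc, he]
    _ = frm ψ P f * VV P f := by
        rw [← h2]
        unfold frm
        simp only [Matrix.mul_assoc]

theorem frm_skew {ψ : Matrix (Fin n) (Fin n) K} {L : Submodule K (Matrix (Fin n) (Fin n) K)}
    {P : Matrix.GeneralLinearGroup (Fin n) K} {k : Fin n} {r : ℕ} {f : Fin r → Fin n}
    (h2 : UU P f * VV P f = idm L P k) (h3 : idm L P k * UU P f = UU P f)
    (he : (idm L P k).transpose * ψ = ψ * idm L P k)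
    {A : Matrix (Fin n) (Fin n) K} (hA : A.transpose * ψ + ψ * A = 0) :
    (VV P f * A * UU P f).transpose * frm ψ P f + frm ψ P f * (VV P f * A * UU P f) = 0 := by
  have e1 : (VV P f * A * UU P f).transpose * frm ψ P f =
      (UU P f).transpose * (A.transpose * ψ) * UU P f := by
    calc (VV P f * A * UU P f).transpose * frm ψ P f
        = (UU P f).transpose * A.transpose * ((VV P f).transpose * frm ψ P f) := by
          rw [Matrix.transpose_mul, Matrix.transpose_mul]
          simp only [Matrix.mul_assoc]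
      _ = (UU P f).transpose * (A.transpose * ψ) * UU P f := by
          rw [← frm_left h2 h3 he]
          simp only [Matrix.mul_assoc]
  have e2 : frm ψ P f * (VV P f * A * UU P f) = (UU P f).transpose * (ψ * A) * UU P f := by
    calc frm ψ P f * (VV P f * A * UU P f) = frm ψ P f * VV P f * (A * UU P f) := by
          simp only [Matrix.mul_assoc]
      _ = (UU P f).transpose * (ψ * A) * UU P f := by
          rw [← frm_right h2 h3 he]
          simp only [Matrix.mul_assoc]
  rw [e1, e2, ← Matrix.add_mul, ← Matrix.mul_add, hA, Matrix.mul_zero, Matrix.zero_mul]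

theorem frm_skew' {ψ : Matrix (Fin n) (Fin n) K} {L : Submodule K (Matrix (Fin n) (Fin n) K)}
    {P : Matrix.GeneralLinearGroup (Fin n) K} {k : Fin n} {r : ℕ} {f : Fin r → Fin n}
    (h2 : UU P f * VV P f = idm L P k) (h3 : idm L P k * UU P f = UU P f)
    (he : (idm L P k).transpose * ψ = ψ * idm L P k)
    {Y : Matrix (Fin r) (Fin r) K} (hY : Y.transpose * frm ψ P f + frm ψ P f * Y = 0) :
    (UU P f * Y * VV P f).transpose * ψ + ψ * (UU P f * Y * VV P f) = 0 := by
  have e1 : (UU P f * Y * VV P f).transpose * ψ =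
      (VV P f).transpose * (Y.transpose * frm ψ P f) * VV P f := by
    calc (UU P f * Y * VV P f).transpose * ψ
        = (VV P f).transpose * Y.transpose * ((UU P f).transpose * ψ) := by
          rw [Matrix.transpose_mul, Matrix.transpose_mul]
          simp only [Matrix.mul_assoc]
      _ = (VV P f).transpose * (Y.transpose * frm ψ P f) * VV P f := by
          rw [frm_right h2 h3 he]
          simp only [Matrix.mul_assoc]
  have e2 : ψ * (UU P f * Y * VV P f) = (VV P f).transpose * (frm ψ P f * Y) * VV P f := by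
    calc ψ * (UU P f * Y * VV P f) = ψ * UU P f * (Y * VV P f) := by
          simp only [Matrix.mul_assoc]
      _ = (VV P f).transpose * (frm ψ P f * Y) * VV P f := by
          rw [frm_left h2 h3 he]
          simp only [Matrix.mul_assoc]
  rw [e1, e2, ← Matrix.add_mul, ← Matrix.mul_add, hY, Matrix.mul_zero, Matrix.zero_mul]

end EM.A97

namespace EM

open EM.A97

theorem st_BFM (hI : ST_IRB) : ST_BFM := by
  classical
  intro K _ _ n w h ψ L P k r f hS hP hf hadj
  obtain ⟨c1, c2, c3, c4, c5⟩ := st_COO K n L P k r f hf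
  obtain ⟨i1, i2, -, -⟩ := hI K n w h ψ L P k r f hS hP hf
  have he : (idm L P k).transpose * ψ = ψ * idm L P k := adj_self hS.unit hadj
  have hu : IsUnit ψ.det := isUnit_iff_ne_zero.2 hS.unit
  refine ⟨⟨?_, i2, i1, ?_⟩, ?_, fun A hA => frm_skew c2 c3 he hA,
    fun Y hY => frm_skew' c2 c3 he hY⟩
  · have h1 : frm ψ P f * (VV P f * ψ⁻¹ * (VV P f).transpose) = 1 := by
      calc frm ψ P f * (VV P f * ψ⁻¹ * (VV P f).transpose)
          = frm ψ P f * VV P f * (ψ⁻¹ * (VV P f).transpose) := by
            simp only [Matrix.mul_assoc]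
        _ = (UU P f).transpose * (ψ * ψ⁻¹) * (VV P f).transpose := by
            rw [← frm_right c2 c3 he]
            simp only [Matrix.mul_assoc]
        _ = 1 := by
            rw [Matrix.mul_nonsing_inv _ hu, Matrix.mul_one, ← Matrix.transpose_mul, c1,
              Matrix.transpose_one]
    exact (Matrix.isUnit_det_of_right_inverse h1).ne_zero
  · rintro _ ⟨A, hA, rfl⟩
    exact frm_skew c2 c3 he (hS.iso A hA)
  · unfold frm
    rw [Matrix.transpose_mul, Matrix.transpose_mul, Matrix.transpose_transpose, hS.symm,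
      Matrix.smul_mul, Matrix.mul_smul, Matrix.mul_assoc]

end EM
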