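import Pool.Agent.Helper31.EM.IDM

/-!
EM, row IRB: the blocks are irreducible.
-/

set_option autoImplicit false

open Matrix MT

namespace EM.A97

variable {K : Type} [Field K] {n : ℕ}

theorem blk_left {L : Submodule K (Matrix (Fin n) (Fin n) K)}
    {P : Matrix.GeneralLinearGroup (Fin n) K} {k : Fin n} {r : ℕ} {f : Fin r → Fin n}
    (he : idm L P k ∈ Cmt L) (h2 : UU P f * VV P f = idm L P k)
    (h3 : idm L P k * UU P f = UU P f) {A : Matrix (Fin n) (Fin n) K} (hA : A ∈ L) :
    A * UU P f = UU P f * (VV P f * A * UU P f) := by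
  calc A * UU P f = A * (idm L P k * UU P f) := by rw [h3]
    _ = idm L P k * A * UU P f := by rw [← Matrix.mul_assoc, he A hA]
    _ = UU P f * (VV P f * A * UU P f) := by rw [← h2]; simp only [Matrix.mul_assoc]

theorem blk_right {L : Submodule K (Matrix (Fin n) (Fin n) K)}
    {P : Matrix.GeneralLinearGroup (Fin n) K} {k : Fin n} {r : ℕ} {f : Fin r → Fin n}
    (he : idm L P k ∈ Cmt L) (h2 : UU P f * VV P f = idm L P k)
    (h4 : VV P f * idm L P k = VV P f) {A : Matrix (Fin n) (Fin n) K} (hA : A ∈ L) :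
    VV P f * A = VV P f * A * UU P f * VV P f := by
  calc VV P f * A = VV P f * idm L P k * A := by rw [h4]
    _ = VV P f * (A * idm L P k) := by rw [he A hA, Matrix.mul_assoc]
    _ = VV P f * A * UU P f * VV P f := by rw [← h2]; simp only [Matrix.mul_assoc]

theorem blk_mul {L : Submodule K (Matrix (Fin n) (Fin n) K)}
    {P : Matrix.GeneralLinearGroup (Fin n) K} {k : Fin n} {r : ℕ} {f : Fin r → Fin n}
    (he : idm L P k ∈ Cmt L) (h2 : UU P f * VV P f = idm L P k)
    (h3 : idm L P k * UU P f = UU P f) {A B : Matrix (Fin n) (Fin n) K} (hB : B ∈ L) :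
    (VV P f * A * UU P f) * (VV P f * B * UU P f) = VV P f * (A * B) * UU P f := by
  calc (VV P f * A * UU P f) * (VV P f * B * UU P f)
      = VV P f * A * (UU P f * (VV P f * B * UU P f)) := by simp only [Matrix.mul_assoc]
    _ = VV P f * A * (B * UU P f) := by rw [← blk_left he h2 h3 hB]
    _ = VV P f * (A * B) * UU P f := by simp only [Matrix.mul_assoc]

theorem blk_dg (P : Matrix.GeneralLinearGroup (Fin n) K) {r : ℕ} {f : Fin r → Fin n}
    (hf : Function.Injective f) (s : Fin n → ℤ) :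
    VV P f * dg P s * UU P f = Matrix.diagonal (fun i => ((s (f i) : ℤ) : K)) := by
  have h1 : VV P f * dg P s * UU P f =
      (((P⁻¹ : Matrix.GeneralLinearGroup (Fin n) K) : Matrix (Fin n) (Fin n) K) * dg P s *
        (P : Matrix (Fin n) (Fin n) K)).submatrix f f := rfl
  have h2 : ((P⁻¹ : Matrix.GeneralLinearGroup (Fin n) K) : Matrix (Fin n) (Fin n) K) * dg P s *
        (P : Matrix (Fin n) (Fin n) K) = Matrix.diagonal (fun j => (s j : K)) := by
    unfold dg
    rw [Matrix.mul_assoc, Matrix.mul_assoc, coo_inv_mul, Matrix.mul_one, ← Matrix.mul_assoc,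
      coo_inv_mul, Matrix.one_mul]
  rw [h1, h2, Matrix.submatrix_diagonal _ _ hf]
  rfl

theorem vu_mulVec {P : Matrix.GeneralLinearGroup (Fin n) K} {r : ℕ} {f : Fin r → Fin n}
    (h1 : VV P f * UU P f = 1) (v : Fin r → K) :
    (VV P f).mulVec ((UU P f).mulVec v) = v := by
  rw [Matrix.mulVec_mulVec, h1, Matrix.one_mulVec]

end EM.A97

namespace EM

open EM.A97

theorem st_IRB (hC : ST_CPL) : ST_IRB := by
  classical
  intro K _ _ n w h ψ L P k r f hS hP hf
  obtain ⟨c1, c2, c3, c4, c5⟩ := st_COO K n L P k r f hf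
  have he : idm L P k ∈ Cmt L := idm_mem hP k
  refine ⟨?_, ?_, hP.mem, blk_dg P hf.inj _⟩
  · intro U hU
    by_cases hbot : U = ⊥
    · exact Or.inl hbot
    right
    obtain ⟨w0, hw0, hw0'⟩ := (Submodule.ne_bot_iff U).1 hbot
    set W : Submodule K (Fin n → K) := U.map (UU P f).mulVecLin with hW
    have hWst : ∀ A ∈ L, ∀ v ∈ W, A.mulVec v ∈ W := by
      intro A hA v hv
      obtain ⟨u, hu, rfl⟩ := Submodule.mem_map.1 hv
      have h1 : A.mulVec ((UU P f).mulVecLin u) =
          (UU P f).mulVecLin ((VV P f * A * UU P f).mulVec u) := by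
        rw [Matrix.mulVecLin_apply, Matrix.mulVecLin_apply, Matrix.mulVec_mulVec,
          Matrix.mulVec_mulVec, blk_left he c2 c3 hA]
      rw [h1]
      exact Submodule.mem_map_of_mem (hU _ ⟨A, hA, rfl⟩ u hu)
    obtain ⟨W', hW'st, hcompl⟩ := hC K n L hS.ss W hWst
    set p : (Fin n → K) →ₗ[K] (Fin n → K) :=
      W.subtype.comp (Submodule.linearProjOfIsCompl W W' hcompl) with hp
    have hp1 : ∀ v ∈ W, p v = v := by
      intro v hv
      have := Submodule.linearProjOfIsCompl_apply_left hcompl ⟨v, hv⟩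
      rw [hp, LinearMap.comp_apply]
      exact congrArg W.subtype this
    have hp2 : ∀ v ∈ W', p v = 0 := by
      intro v hv
      have := Submodule.linearProjOfIsCompl_apply_right hcompl ⟨v, hv⟩
      rw [hp, LinearMap.comp_apply]
      rw [show (Submodule.linearProjOfIsCompl W W' hcompl) v = 0 from this, map_zero]
    have hpW : ∀ v, p v ∈ W := fun v => (Submodule.linearProjOfIsCompl W W' hcompl v).2
    set π : Matrix (Fin n) (Fin n) K := LinearMap.toMatrix' p with hπ
    have hπv : ∀ v, π.mulVec v = p v := fun v => by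
      rw [hπ, LinearMap.toMatrix'_mulVec]
    have hπm : π ∈ Cmt L := by
      intro A hA
      apply Matrix.toLin'.injective
      apply LinearMap.ext
      intro v
      rw [Matrix.toLin'_apply, Matrix.toLin'_apply, ← Matrix.mulVec_mulVec,
        ← Matrix.mulVec_mulVec, hπv, hπv]
      have hv : v ∈ W ⊔ W' := by
        rw [hcompl.sup_eq_top]
        exact Submodule.mem_top
      obtain ⟨a, ha, b, hb, rfl⟩ := Submodule.mem_sup.1 hv
      rw [map_add, hp1 a ha, hp2 b hb, add_zero, Matrix.mulVec_add, map_add,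
        hp1 _ (hWst A hA a ha), hp2 _ (hW'st A hA b hb), add_zero]
    have hπe := mul_idm hP k hπm
    set c : K := evl P π k with hc
    have hkey : ∀ v : Fin r → K, p ((UU P f).mulVec v) = c • (UU P f).mulVec v := by
      intro v
      rw [← hπv, Matrix.mulVec_mulVec]
      conv_lhs => rw [← c3]
      rw [← Matrix.mul_assoc, hπe, Matrix.smul_mul, c3, Matrix.smul_mulVec]
    have hUW : ∀ u ∈ U, (UU P f).mulVec u ∈ W := fun u hu =>
      Submodule.mem_map_of_mem (f := (UU P f).mulVecLin) hu
    have hc1 : c = 1 := by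
      have h1 := hkey w0
      rw [hp1 _ (hUW w0 hw0)] at h1
      have h2 := congrArg (VV P f).mulVec h1
      rw [Matrix.mulVec_smul, vu_mulVec c1] at h2
      have h3 : (1 - c) • w0 = 0 := by rw [sub_smul, one_smul, ← h2, sub_self]
      rcases smul_eq_zero.1 h3 with h0 | h0
      · exact (sub_eq_zero.1 h0).symm
      · exact absurd h0 hw0'
    rw [eq_top_iff]
    intro v _
    have h1 := hkey v
    rw [hc1, one_smul] at h1
    have h2 : (UU P f).mulVec v ∈ W := by
      rw [← h1]
      exact hpW _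
    obtain ⟨u, hu, hu'⟩ := Submodule.mem_map.1 h2
    rw [Matrix.mulVecLin_apply] at hu'
    have h3 := congrArg (VV P f).mulVec hu'
    rw [vu_mulVec c1, vu_mulVec c1] at h3
    rw [← h3]
    exact hu
  · rintro _ ⟨A, hA, rfl⟩ _ ⟨B, hB, rfl⟩
    refine ⟨A * B - B * A, hS.brk A hA B hB, ?_⟩
    rw [blk_mul he c2 c3 hB, blk_mul he c2 c3 hA, Matrix.mul_sub, Matrix.sub_mul]

end EM
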