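import Pool.Agent.Helper97.EM.WID

/-!
EM, row LNR: an isolated type in a real block.
-/

set_option autoImplicit false

open Matrix MT

namespace EM.A97

variable {K : Type} [Field K] {n : ℕ}

theorem exists_enm' (L : Submodule K (Matrix (Fin n) (Fin n) K))
    (P : Matrix.GeneralLinearGroup (Fin n) K) (k : Fin n) :
    ∃ (r : ℕ) (f : Fin r → Fin n), Enm L P k r f := by
  classical
  set S : Finset (Fin n) := Finset.univ.filter fun j => Sam L P j P k with hS
  refine ⟨S.card, fun i => S.orderEmbOfFin rfl i, (S.orderEmbOfFin rfl).injective, fun j => ?_⟩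
  have h1 : Set.range (S.orderEmbOfFin rfl) = (S : Set (Fin n)) := Finset.range_orderEmbOfFin S rfl
  have h2 : (∃ i, S.orderEmbOfFin rfl i = j) ↔ j ∈ Set.range (S.orderEmbOfFin rfl) := Iff.rfl
  rw [h2, h1, Finset.mem_coe, hS, Finset.mem_filter]
  simp

theorem skew_brk {r : ℕ} {φ A B : Matrix (Fin r) (Fin r) K}
    (hA : A.transpose * φ + φ * A = 0) (hB : B.transpose * φ + φ * B = 0) :
    (B * A - A * B).transpose * φ + φ * (B * A - A * B) = 0 := by
  have a1 : A.transpose * φ = -(φ * A) := eq_neg_of_add_eq_zero_left hA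
  have b1 : B.transpose * φ = -(φ * B) := eq_neg_of_add_eq_zero_left hB
  have e1 : (B * A - A * B).transpose * φ =
      A.transpose * (B.transpose * φ) - B.transpose * (A.transpose * φ) := by
    rw [Matrix.transpose_sub, Matrix.transpose_mul, Matrix.transpose_mul, Matrix.sub_mul,
      Matrix.mul_assoc, Matrix.mul_assoc]
  rw [e1, a1, b1, Matrix.mul_neg, Matrix.mul_neg, ← Matrix.mul_assoc, ← Matrix.mul_assoc, a1, b1,
    Matrix.neg_mul, Matrix.neg_mul, Matrix.mul_sub, Matrix.mul_assoc, Matrix.mul_assoc]
  abel

theorem dg_blk (P : Matrix.GeneralLinearGroup (Fin n) K) {r : ℕ} {f : Fin r → Fin n}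
    (hf : Function.Injective f) (s : Fin n → ℤ) (hs : ∀ j, s j ≠ 0 → ∃ i, f i = j) :
    dg P s = UU P f * Matrix.diagonal (fun i => ((s (f i) : ℤ) : K)) * VV P f := by
  classical
  ext i j
  have e1 : (UU P f * Matrix.diagonal (fun i => ((s (f i) : ℤ) : K)) * VV P f) i j =
      ∑ a : Fin r, (P : Matrix (Fin n) (Fin n) K) i (f a) * ((s (f a) : ℤ) : K) *
        ((P⁻¹ : Matrix.GeneralLinearGroup (Fin n) K) : Matrix (Fin n) (Fin n) K) (f a) j := by
    rw [Matrix.mul_apply]
    refine Finset.sum_congr rfl fun a _ => ?_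
    rw [Matrix.mul_diagonal]
    rfl
  have e2 : dg P s i j = ∑ x : Fin n, (P : Matrix (Fin n) (Fin n) K) i x * ((s x : ℤ) : K) *
        ((P⁻¹ : Matrix.GeneralLinearGroup (Fin n) K) : Matrix (Fin n) (Fin n) K) x j := by
    unfold dg
    rw [Matrix.mul_apply]
    refine Finset.sum_congr rfl fun a _ => ?_
    rw [Matrix.mul_diagonal]
  rw [e1, e2]
  rw [← Finset.sum_image (s := Finset.univ) (g := f) (f := fun x : Fin n =>
    (P : Matrix (Fin n) (Fin n) K) i x * ((s x : ℤ) : K) *
        ((P⁻¹ : Matrix.GeneralLinearGroup (Fin n) K) : Matrix (Fin n) (Fin n) K) x j)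
    (fun a _ b _ h => hf h)]
  symm
  refine Finset.sum_subset (Finset.subset_univ _) fun x _ hx => ?_
  have h0 : s x = 0 := by
    by_contra hne
    obtain ⟨a, ha⟩ := hs x hne
    exact hx (Finset.mem_image.2 ⟨a, Finset.mem_univ _, ha⟩)
  rw [h0, Int.cast_zero, mul_zero, zero_mul]

/-- the block ideal -/
def bid (ψ : Matrix (Fin n) (Fin n) K) (L : Submodule K (Matrix (Fin n) (Fin n) K))
    (P : Matrix.GeneralLinearGroup (Fin n) K) {r : ℕ} (f : Fin r → Fin n) :
    Submodule K (Matrix (Fin r) (Fin r) K) where
  carrier := {Y | Y.transpose * frm ψ P f + frm ψ P f * Y = 0 ∧ UU P f * Y * VV P f ∈ L}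
  add_mem' := fun {A B} hA hB => ⟨by
    rw [Matrix.transpose_add, Matrix.add_mul, Matrix.mul_add, add_add_add_comm, hA.1, hB.1,
      add_zero], by
    rw [Matrix.mul_add, Matrix.add_mul]
    exact L.add_mem hA.2 hB.2⟩
  zero_mem' := ⟨by rw [Matrix.transpose_zero, Matrix.zero_mul, Matrix.mul_zero, add_zero], by
    rw [Matrix.mul_zero, Matrix.zero_mul]
    exact L.zero_mem⟩
  smul_mem' := fun c A hA => ⟨by
    rw [Matrix.transpose_smul, Matrix.smul_mul, Matrix.mul_smul, ← smul_add, hA.1, smul_zero], by
    rw [Matrix.mul_smul, Matrix.smul_mul]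
    exact L.smul_mem c hA.2⟩

end EM.A97

namespace EM

open EM.A97

theorem st_LNR (hB : ST_BFM) (hWd : ST_WID) (hN : ST_NRM) (hG : ST_GNT) : ST_LNR := by
  classical
  intro K _ _ _ n w m h ψ L P k hS hP hm hiso hk hcard hadj
  obtain ⟨r, f, hf⟩ := exists_enm' L P k
  obtain ⟨c1, c2, c3, c4, c5⟩ := st_COO K n L P k r f hf
  obtain ⟨b1, b2, b3, b4⟩ := hB K n w h ψ L P k r f hS hP hf hadj
  obtain ⟨n1, n2, n3, n4⟩ := hN K n w m h ψ L P hS.unit hS.symm hS.brk hS.iso hP.mem hm hiso
  have he : (idm L P k).transpose * ψ = ψ * idm L P k := adj_self hS.unit hadj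
  have hem : idm L P k ∈ Cmt L := idm_mem hP k
  -- uniqueness
  obtain ⟨k0, hk0⟩ := Finset.card_eq_one.1 hcard
  have huk : ∀ j, h j = m → j = k := by
    intro j hj
    have h1 : j ∈ Finset.univ.filter fun j => h j = m := Finset.mem_filter.2
      ⟨Finset.mem_univ _, hj⟩
    have h2 : k ∈ Finset.univ.filter fun j => h j = m := Finset.mem_filter.2
      ⟨Finset.mem_univ _, hk⟩
    rw [hk0, Finset.mem_singleton] at h1 h2
    rw [h1, h2]
  rw [hcard] at n4
  obtain ⟨k1, hk1⟩ := Finset.card_eq_one.1 n4.symm
  have huk' : ∀ j, h j + m = w → j = k1 := by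
    intro j hj
    have h1 : j ∈ Finset.univ.filter fun j => h j + m = w := Finset.mem_filter.2
      ⟨Finset.mem_univ _, hj⟩
    rw [hk1, Finset.mem_singleton] at h1
    exact h1
  have hk1' : h k1 + m = w := by
    have h2 : k1 ∈ Finset.univ.filter fun j => h j + m = w := by
      rw [hk1]
      exact Finset.mem_singleton_self _
    exact (Finset.mem_filter.1 h2).2
  -- the two columns of the block
  obtain ⟨a, ha⟩ := (hf.rng k).2 (sam_refl L P k)
  obtain ⟨b, hb⟩ : ∃ b, f b = k1 := by
    by_contra hcon
    push Not at hcon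
    have h0 : ∀ b, frm ψ P f a b = 0 := by
      intro b
      by_contra hne
      have h1 : frm ψ P f a b = ((P : Matrix (Fin n) (Fin n) K).transpose * ψ *
          (P : Matrix (Fin n) (Fin n) K)) (f a) (f b) := rfl
      rw [h1] at hne
      have h2 := n3 _ _ hne
      rw [ha, hk] at h2
      exact hcon b (huk' _ (by omega))
    exact b1.1 (Matrix.det_eq_zero_of_row_eq_zero a h0)
  have hab : a ≠ b := by
    rintro rfl
    rw [ha] at hb
    rw [← hb, hk] at hk1'
    omega
  set s : Fin r → ℤ := fun i => sgm w m h (f i) with hs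
  have hsa : s a = 1 := by
    rw [hs]
    show sgm w m h (f a) = 1
    unfold sgm
    rw [ha, if_pos hk]
  have hsb : s b = -1 := by
    show sgm w m h (f b) = -1
    unfold sgm
    rw [hb, if_neg (by omega), if_pos hk1']
  have hs0 : ∀ j, j ≠ a → j ≠ b → s j = 0 := by
    intro j hja hjb
    show sgm w m h (f j) = 0
    unfold sgm
    rw [if_neg, if_neg]
    · intro h0
      exact hjb (hf.inj (by rw [huk' _ h0, hb]))
    · intro h0
      exact hja (hf.inj (by rw [huk _ h0, ha]))
  have hT : dg P (sgm w m h) = UU P f * Matrix.diagonal (fun i => ((s i : ℤ) : K)) * VV P f := by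
    refine dg_blk P hf.inj _ fun j hj => ?_
    unfold sgm at hj
    by_cases h1 : h j = m
    · exact ⟨a, by rw [ha, huk j h1]⟩
    · rw [if_neg h1] at hj
      by_cases h2 : h j + m = w
      · exact ⟨b, by rw [hb, huk' j h2]⟩
      · rw [if_neg h2] at hj
        exact absurd rfl hj
  have hdg1 : dg (1 : Matrix.GeneralLinearGroup (Fin r) K) s =
      Matrix.diagonal (fun i => ((s i : ℤ) : K)) := by
    unfold dg
    rw [inv_one, Units.val_one, Matrix.one_mul, Matrix.mul_one]
  -- the block is full
  have hfull : (∀ Y : Matrix (Fin r) (Fin r) K, Y.transpose * frm ψ P f + frm ψ P f * Y = 0 →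
        Y ∈ Cps L P f) ∧ (Odd w ∨ 3 ≤ r) := by
    rcases Nat.lt_or_ge 2 r with h2 | h2
    · have h3 : ∃ c : Fin r, c ≠ a ∧ c ≠ b := by
        by_contra hcon
        push Not at hcon
        have h4 : (Finset.univ : Finset (Fin r)) ⊆ {a, b} := by
          intro c _
          rw [Finset.mem_insert, Finset.mem_singleton]
          by_cases hca : c = a
          · exact Or.inl hca
          · exact Or.inr (hcon c hca)
        have h5 := Finset.card_le_card h4
        rw [Finset.card_univ, Fintype.card_fin] at h5
        have h6 := Finset.card_le_two (a := a) (b := b)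
        omega
      obtain ⟨c, hca, hcb⟩ := h3
      have hW : WideC w (h ∘ f) := by
        refine ⟨m, hm, ⟨c, ?_, ?_⟩, Or.inl ⟨?_, ?_⟩⟩
        · intro h0
          exact hca (hf.inj (by rw [huk _ h0, ha]))
        · intro h0
          exact hcb (hf.inj (by rw [huk' _ h0, hb]))
        · exact fun i j l hi hj hl => hiso (f i) (f j) (f l) hi hj hl
        · rw [Finset.card_eq_one]
          refine ⟨a, ?_⟩
          ext j
          rw [Finset.mem_filter, Finset.mem_singleton]
          constructor
          · rintro ⟨-, h0⟩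
            exact hf.inj (by rw [huk _ h0, ha])
          · rintro rfl
            exact ⟨Finset.mem_univ _, by rw [Function.comp_apply, ha, hk]⟩
      exact ⟨(hWd K n w h ψ L P k r f hS hP hf hadj (Or.inr hW)).1, Or.inr h2⟩
    · have h3 := hWd K n w h ψ L P k r f hS hP hf hadj (Or.inl h2)
      have hr2 : r = 2 := by
        have h4 : ({a, b} : Finset (Fin r)).card = 2 := Finset.card_pair hab
        have h5 := Finset.card_le_univ ({a, b} : Finset (Fin r))
        rw [Fintype.card_fin] at h5
        omega
      exact ⟨h3.1, Or.inl (h3.2.2 hr2)⟩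
  have hcA : ∀ A ∈ L, A * idm L P k = idm L P k * A := fun A hA => hem A hA
  -- the ideal
  have hall : ∀ Y : Matrix (Fin r) (Fin r) K, Y ∈ Grs.isoS (frm ψ P f) → Y ∈ bid ψ L P f := by
    refine hG K r w (frm ψ P f) 1 s a b (bid ψ L P f) b1.1 b2 hfull.2 hsa hsb hs0 ?_ ?_ ?_ ?_
    · rw [hdg1]
      have h1 := b3 _ n2
      rw [blk_dg P hf.inj] at h1
      exact h1
    · exact fun A hA => hA.1
    · intro A hA B hB
      refine ⟨skew_brk hA.1 hB, ?_⟩
      obtain ⟨A', hA', rfl⟩ := hfull.1 B hB
      have e1 : UU P f * (VV P f * A' * UU P f * A - A * (VV P f * A' * UU P f)) * VV P f =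
          A' * (UU P f * A * VV P f) - (UU P f * A * VV P f) * A' := by
        have x1 : UU P f * (VV P f * A' * UU P f * A) * VV P f =
            A' * (UU P f * A * VV P f) := by
          calc UU P f * (VV P f * A' * UU P f * A) * VV P f
              = (UU P f * VV P f) * A' * (UU P f * A * VV P f) := by
                simp only [Matrix.mul_assoc]
            _ = A' * (idm L P k * UU P f) * A * VV P f := by
                rw [c2, ← hcA A' hA']
                simp only [Matrix.mul_assoc]
            _ = A' * (UU P f * A * VV P f) := by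
                rw [c3]
                simp only [Matrix.mul_assoc]
        have x2 : UU P f * (A * (VV P f * A' * UU P f)) * VV P f =
            (UU P f * A * VV P f) * A' := by
          calc UU P f * (A * (VV P f * A' * UU P f)) * VV P f
              = UU P f * A * VV P f * (A' * (UU P f * VV P f)) := by
                simp only [Matrix.mul_assoc]
            _ = UU P f * A * (VV P f * idm L P k) * A' := by
                rw [c2, hcA A' hA']
                simp only [Matrix.mul_assoc]
            _ = (UU P f * A * VV P f) * A' := by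
                rw [c4]
        rw [Matrix.mul_sub, Matrix.sub_mul, x1, x2]
      rw [e1]
      exact hS.brk A' hA' _ hA.2
    · intro Z hZ
      rw [hdg1]
      have hd : (Matrix.diagonal (fun i => ((s i : ℤ) : K))).transpose * frm ψ P f +
          frm ψ P f * Matrix.diagonal (fun i => ((s i : ℤ) : K)) = 0 := by
        have h1 := b3 _ n2
        rw [blk_dg P hf.inj] at h1
        exact h1
      refine ⟨skew_brk hZ hd, ?_⟩
      obtain ⟨A', hA', rfl⟩ := hfull.1 Z hZ
      have e1 : UU P f * (Matrix.diagonal (fun i => ((s i : ℤ) : K)) * (VV P f * A' * UU P f) -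
          VV P f * A' * UU P f * Matrix.diagonal (fun i => ((s i : ℤ) : K))) * VV P f =
          dg P (sgm w m h) * A' - A' * dg P (sgm w m h) := by
        have x1 : UU P f * (Matrix.diagonal (fun i => ((s i : ℤ) : K)) *
            (VV P f * A' * UU P f)) * VV P f = dg P (sgm w m h) * A' := by
          calc UU P f * (Matrix.diagonal (fun i => ((s i : ℤ) : K)) *
                (VV P f * A' * UU P f)) * VV P f
              = UU P f * Matrix.diagonal (fun i => ((s i : ℤ) : K)) * VV P f *
                (A' * (UU P f * VV P f)) := by simp only [Matrix.mul_assoc]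
            _ = UU P f * Matrix.diagonal (fun i => ((s i : ℤ) : K)) *
                (VV P f * idm L P k) * A' := by
                rw [c2, hcA A' hA']
                simp only [Matrix.mul_assoc]
            _ = dg P (sgm w m h) * A' := by rw [c4, hT]
        have x2 : UU P f * (VV P f * A' * UU P f *
            Matrix.diagonal (fun i => ((s i : ℤ) : K))) * VV P f = A' * dg P (sgm w m h) := by
          calc UU P f * (VV P f * A' * UU P f *
                Matrix.diagonal (fun i => ((s i : ℤ) : K))) * VV P f
              = (UU P f * VV P f) * A' * (UU P f *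
                Matrix.diagonal (fun i => ((s i : ℤ) : K)) * VV P f) := by
                simp only [Matrix.mul_assoc]
            _ = A' * ((idm L P k * UU P f) *
                Matrix.diagonal (fun i => ((s i : ℤ) : K)) * VV P f) := by
                rw [c2, ← hcA A' hA']
                simp only [Matrix.mul_assoc]
            _ = A' * dg P (sgm w m h) := by rw [c3, hT]
        rw [Matrix.mul_sub, Matrix.sub_mul, x1, x2]
      rw [e1]
      exact n1 A' hA'
  intro A hA hA'
  have h1 := (hall _ (b3 A hA)).2
  have h2 : UU P f * (VV P f * A * UU P f) * VV P f = A := by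
    calc UU P f * (VV P f * A * UU P f) * VV P f
        = (UU P f * VV P f) * A * (UU P f * VV P f) := by simp only [Matrix.mul_assoc]
      _ = A := by rw [c2, hA']
  rw [h2] at h1
  exact h1

end EM
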