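import Pool.Agent.Helper97.EM.BFM

/-!
EM, row WID: blocks with wide Hodge numbers.
-/

set_option autoImplicit false

open Matrix MT

namespace EM.A97

variable {K : Type} [Field K] {n : ℕ}

/-- from the block to the space -/
theorem sur_of_full {ψ : Matrix (Fin n) (Fin n) K} {L : Submodule K (Matrix (Fin n) (Fin n) K)}
    {P : Matrix.GeneralLinearGroup (Fin n) K} {k : Fin n} {r : ℕ} {f : Fin r → Fin n}
    (h2 : UU P f * VV P f = idm L P k) (h3 : idm L P k * UU P f = UU P f)
    (he : (idm L P k).transpose * ψ = ψ * idm L P k)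
    (hfull : ∀ Y : Matrix (Fin r) (Fin r) K, Y.transpose * frm ψ P f + frm ψ P f * Y = 0 →
        Y ∈ Cps L P f) : Sur ψ L (idm L P k) := by
  intro Y hY hY'
  obtain ⟨A, hA, hA'⟩ := hfull _ (frm_skew h2 h3 he hY)
  refine ⟨A, hA, ?_⟩
  calc idm L P k * A * idm L P k = UU P f * (VV P f * A * UU P f) * VV P f := by
        rw [← h2]
        simp only [Matrix.mul_assoc]
    _ = UU P f * (VV P f * Y * UU P f) * VV P f := by rw [hA']
    _ = idm L P k * Y * idm L P k := by
        rw [← h2]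
        simp only [Matrix.mul_assoc]
    _ = Y := hY'

theorem one_case [CharZero K] {w : ℕ} {ψ Y : Matrix (Fin 1) (Fin 1) K} (hd : ψ.det ≠ 0)
    (hs : ψ.transpose = (-1 : K) ^ w • ψ) (hY : Y.transpose * ψ + ψ * Y = 0) : Y = 0 := by
  rw [Matrix.det_fin_one] at hd
  have h1 := congrFun (congrFun hY 0) 0
  simp only [Matrix.add_apply, Matrix.mul_apply, Finset.univ_unique, Fin.default_eq_zero,
    Finset.sum_singleton, Matrix.transpose_apply, Matrix.zero_apply] at h1
  have h2 : (2 * ψ 0 0) * Y 0 0 = 0 := by linear_combination h1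
  have h3 : Y 0 0 = 0 := by
    rcases mul_eq_zero.1 h2 with h | h
    · exact absurd (mul_eq_zero.1 h) (by push Not; exact ⟨two_ne_zero, hd⟩)
    · exact h
  ext i j
  rw [Subsingleton.elim i 0, Subsingleton.elim j 0, h3, Matrix.zero_apply]

end EM.A97

namespace EM

open EM.A97

theorem st_WID (hI : ST_IRB) (hB : ST_BFM) (hT : ST_TWO2) (hC : MT.ST_TOPC) : ST_WID := by
  classical
  intro K _ _ _ n w h ψ L P k r f hS hP hf hadj hw
  obtain ⟨c1, c2, c3, c4, c5⟩ := st_COO K n L P k r f hf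
  obtain ⟨i1, i2, i3, i4⟩ := hI K n w h ψ L P k r f hS hP hf
  obtain ⟨b1, b2, b3, b4⟩ := hB K n w h ψ L P k r f hS hP hf hadj
  have he : (idm L P k).transpose * ψ = ψ * idm L P k := adj_self hS.unit hadj
  have hr : r ≠ 0 := by
    rintro rfl
    obtain ⟨i, -⟩ := (hf.rng k).2 (sam_refl L P k)
    exact i.elim0
  have hmain : (∀ Y : Matrix (Fin r) (Fin r) K, Y.transpose * frm ψ P f + frm ψ P f * Y = 0 →
        Y ∈ Cps L P f) ∧ (r = 2 → Odd w) := by
    rcases Nat.lt_or_ge 2 r with h2 | h2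
    · have hW : WideC w (h ∘ f) := by
        rcases hw with h0 | h0
        · omega
        · exact h0
      refine ⟨?_, fun h0 => absurd h0 (by omega)⟩
      refine hC K r w (h ∘ f) (frm ψ P f) 1 (Cps L P f) hW b2 b1 ?_
      refine ⟨_, i3, ?_⟩
      rw [i4]
      unfold dg
      rw [inv_one, Units.val_one, Matrix.one_mul, Matrix.mul_one]
      rfl
    · have h12 : r = 1 ∨ r = 2 := by omega
      rcases h12 with rfl | rfl
      · refine ⟨fun Y hY => ?_, fun h0 => absurd h0 (by omega)⟩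
        rw [one_case b1.1 b2 hY]
        exact (Cps L P f).zero_mem
      · obtain ⟨t1, t2⟩ := hT K w (frm ψ P f) (Cps L P f) b1 b2
        exact ⟨t2, fun _ => t1⟩
  exact ⟨hmain.1, sur_of_full c2 c3 he hmain.1, hmain.2⟩

end EM
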